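import Pool.Agent.Lib.MP_6b2d39_agNw.Fill
import Pool.Agent.Lib.MP_6b2d39_agStd.Std

/-!
Diagrams which can be filled exactly by points of bounded multiplicity.
-/

set_option autoImplicit false

namespace Pool.Agent.Lib.MP_6b2d39_agNf

open Pool.Agent.Lib.MP_6b2d39_ag Pool.Agent.Lib.MP_6b2d39_agArr

/-- demands of the rows `b < H` which can be filled exactly by points of multiplicity `≤ M`; from
the row `A` on they decrease strictly -/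
structure Dem (M A H : ℕ) (dem : ℕ → ℤ) : Prop where
  hM : 1 ≤ M
  hA : 2 * M + 1 ≤ A
  hH : 2 * M + 1 ≤ H
  d1 : ∀ b, A ≤ b + 1 → b + 1 < H → dem (b + 1) + 1 ≤ dem b
  d2 : ∀ b, b + 1 < H → dem (b + 1) ≤ dem b + 1
  d3 : ∀ b < H, 1 ≤ dem b
  d4 : ∀ b ≤ A, b < H → 9 * (M : ℤ) ^ 2 + 2 * M ≤ dem b
  d7 : ∀ b : ℕ, 1 ≤ b → b < M → Lam b dem ≤ 2 * b

/-- rows `r b`, `b < H`, to which `w < M` cells can be added such that the demands are good -/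
def Fillable (M H : ℕ) (r : ℕ → ℕ) : Prop :=
  ∀ w < M, ∃ (A : ℕ) (dem : ℕ → ℤ), Dem M A H dem ∧ (∀ b < H, (r b : ℤ) ≤ dem b) ∧
    ∑ b ∈ Finset.range H, dem b = ∑ b ∈ Finset.range H, (r b : ℤ) + w

/-- rows of a Young diagram with long first rows -/
structure Long (M A H : ℕ) (r : ℕ → ℕ) : Prop where
  hM : 1 ≤ M
  hA : 2 * M + 1 ≤ A
  hH : 2 * M + 1 ≤ H
  dec : ∀ b, A ≤ b + 1 → b + 1 < H → r (b + 1) + 1 ≤ r b
  anti : ∀ b, b + 1 < H → r (b + 1) ≤ r b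
  pos : ∀ b < H, 1 ≤ r b
  long : ∀ b ≤ A, b < H → 9 * M ^ 2 + 2 * M ≤ r b
  aff : ∃ σ : ℕ, ∀ b ≤ M, r b + σ * b = r 0

end Pool.Agent.Lib.MP_6b2d39_agNf
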