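import Pool.Agent.Lib.MP_6b2d39_agNf.FillE

set_option autoImplicit false

namespace Pool.Agent.Lib.MP_6b2d39_agNf

open Pool.Agent.Lib.MP_6b2d39_ag Pool.Agent.Lib.MP_6b2d39_agArr Pool.Agent.Lib.MP_6b2d39_agWin
  Pool.Agent.Lib.MP_6b2d39_agNw

open Polynomial in
private theorem exc_coeff (f : ℂ[X][X]) (a b : ℕ) :
    ((Bivariate.swap f).coeff a).coeff b = (f.coeff b).coeff a := by
  induction f using Polynomial.induction_on' with
  | add f g hf hg =>
    rw [map_add, coeff_add, coeff_add, coeff_add, coeff_add, hf, hg]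
  | monomial n p =>
    induction p using Polynomial.induction_on' with
    | add p q hp hq =>
      rw [map_add (monomial n), map_add, coeff_add, coeff_add, coeff_add, coeff_add, hp, hq]
    | monomial k c =>
      rw [Bivariate.swap_monomial_monomial, coeff_monomial, coeff_monomial]
      by_cases h1 : k = a
      · rw [if_pos h1]
        by_cases h2 : n = b
        · rw [if_pos h2, coeff_monomial, coeff_monomial, if_pos h1, if_pos h2]
        · rw [if_neg h2, coeff_monomial, if_neg h2, coeff_zero]
      · rw [if_neg h1, coeff_zero]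
        by_cases h2 : n = b
        · rw [if_pos h2, coeff_monomial, if_neg h1]
        · rw [if_neg h2, coeff_zero]

open Polynomial in
private theorem exc_cond {m : ℕ} {x y : ℂ} {f : ℂ[X][X]}
    (h : Cond (Finset.Icc 1 m) y x f) :
    Cond (Finset.Icc 1 m) x y (Bivariate.swap f) := by
  rw [Pool.Agent.Lib.MP_6b2d39_ag.cond_iff] at h ⊢
  refine mem_pow_of_map (Bivariate.swap (R := ℂ)).toRingEquiv.toRingHom _ _ ?_ h
  intro g hg
  obtain ⟨u, v, rfl⟩ := Ideal.mem_span_pair.1 hg
  change Bivariate.swap (u * (X - C (C y)) + v * C (X - C x)) ∈ _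
  rw [map_add, map_mul, map_mul]
  apply Ideal.add_mem
  · apply Ideal.mul_mem_left
    rw [map_sub (Bivariate.swap (R := ℂ)), Bivariate.swap_Y, Bivariate.swap_C_C, ← C_sub]
    exact Ideal.subset_span (by simp)
  · apply Ideal.mul_mem_left
    have h2 : Bivariate.swap (C (X - C x) : ℂ[X][X]) = X - C (C x) := by
      rw [C_sub, map_sub (Bivariate.swap (R := ℂ)), Bivariate.swap_X, Bivariate.swap_C_C]
    rw [h2]
    exact Ideal.subset_span (by simp)

/-- N3. exchange of the coordinates (compare `EmpP.of_shear`) -/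
theorem EmpP.of_swap {ι : Type} {P : Finset (ℕ × ℕ)} {m : ι → ℕ} {J : Finset ι}
    (h : EmpP (P.image Prod.swap) m J) : EmpP P m J := by
  obtain ⟨x, y, hx, hy, H⟩ := h
  refine ⟨y, x, hy, hx, fun f hf hc => ?_⟩
  have h1 : Polynomial.Bivariate.swap f = 0 := by
    refine H _ (fun a b hab => ?_) fun i hi => exc_cond (hc i hi)
    rw [exc_coeff]
    refine hf b a fun h2 => hab ?_
    exact Finset.mem_image.2 ⟨(b, a), h2, rfl⟩
  exact (map_eq_zero_iff _ (Polynomial.Bivariate.swap (R := ℂ)).injective).1 h1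

/-- the rows `min s (n - b)`, `b < n`, and one more cell: exchange the coordinates -/
theorem emp_exc {ι : Type} [Fintype ι] [DecidableEq ι] {m : ι → ℕ} {J : Finset ι}
    {M n s : ℕ} {r : ℕ → ℕ} (hM : 1 ≤ M) (hm : ∀ j ∈ J, m j ≤ M) (hsn : s ≤ n)
    (hs : 9 * M ^ 2 + 4 * M + 1 ≤ s) (hr : ∀ b < n, r b = min s (n - b)) (h1 : r n = 1)
    (hmass : ∑ b ∈ Finset.range (n + 1), r b ≤ mass m J) : EmpP (dgm r (n + 1)) m J := by
  obtain ⟨c, hc⟩ : ∃ c : ℕ → ℕ, c = fun a => if a = 0 then n + 1 else n - a := ⟨_, rfl⟩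
  have hc0 : c 0 = n + 1 := by
    rw [hc]
    exact if_pos rfl
  have hc1 : ∀ a, a ≠ 0 → c a = n - a := by
    intro a ha
    rw [hc]
    exact if_neg ha
  have hs1 : 1 ≤ s := by omega
  have himg : (dgm r (n + 1)).image Prod.swap = dgm c s := by
    ext ⟨b, a⟩
    rw [Finset.mem_image, mem_dgm]
    constructor
    · rintro ⟨⟨a', b'⟩, h2, h3⟩
      rw [mem_dgm] at h2
      obtain ⟨h4, h5⟩ := h2
      change b' < n + 1 at h4
      change a' < r b' at h5
      have e1 : b' = b := congrArg Prod.fst h3
      have e2 : a' = a := congrArg Prod.snd h3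
      subst e1 e2
      change a' < s ∧ b' < c a'
      rcases Nat.lt_or_ge b' n with h6 | h6
      · rw [hr b' h6] at h5
        refine ⟨by omega, ?_⟩
        by_cases h7 : a' = 0
        · rw [h7, hc0]
          omega
        · rw [hc1 a' h7]
          omega
      · have h7 : b' = n := by omega
        rw [h7, h1] at h5
        have h8 : a' = 0 := by omega
        rw [h8, hc0]
        exact ⟨by omega, by omega⟩
    · rintro ⟨h2, h3⟩
      change a < s at h2
      change b < c a at h3
      refine ⟨(a, b), ?_, rfl⟩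
      rw [mem_dgm]
      change b < n + 1 ∧ a < r b
      by_cases h7 : a = 0
      · rw [h7, hc0] at h3
        refine ⟨h3, ?_⟩
        rcases Nat.lt_or_ge b n with h6 | h6
        · rw [hr b h6]
          omega
        · have h8 : b = n := by omega
          rw [h8, h1]
          omega
      · rw [hc1 a h7] at h3
        refine ⟨by omega, ?_⟩
        rw [hr b (by omega)]
        omega
  have hcard : ∑ a ∈ Finset.range s, c a = ∑ b ∈ Finset.range (n + 1), r b := by
    rw [← card_dgm, ← card_dgm, ← himg, Finset.card_image_of_injective _ Prod.swap_injective]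
  refine EmpP.of_swap ?_
  rw [himg]
  refine emp_of_fillable (fillable_exc hM hsn hs hc0 fun a ha has => ?_) hM hm (by rwa [hcard])
  rw [hc1 a (by omega)]
  omega

end Pool.Agent.Lib.MP_6b2d39_agNf
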