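import Pool.Agent.Lib.MP_6b2d39_agNf.Light

set_option autoImplicit false

namespace Pool.Agent.Lib.MP_6b2d39_agNf

open Pool.Agent.Lib.MP_6b2d39_ag Pool.Agent.Lib.MP_6b2d39_agArr Pool.Agent.Lib.MP_6b2d39_agWin
  Pool.Agent.Lib.MP_6b2d39_agNw

private theorem fillE_row (r : ℕ → ℕ) (H b : ℕ) : (rowOf (dgm r H) b).card ≤ r b := by
  have h : rowOf (dgm r H) b ⊆ Finset.range (r b) := by
    intro a ha
    unfold rowOf at ha
    rw [Finset.mem_image] at ha
    obtain ⟨p, hp, rfl⟩ := ha
    rw [Finset.mem_filter, mem_dgm] at hp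
    obtain ⟨⟨_, h2⟩, h3⟩ := hp
    rw [h3] at h2
    exact Finset.mem_range.2 h2
  have := Finset.card_le_card h
  rwa [Finset.card_range] at this

private theorem fillE_ind (w n : ℕ) :
    ∑ x ∈ Finset.range n, (if x < w then (1 : ℤ) else 0) = (min w n : ℕ) := by
  induction n with
  | zero => simp
  | succ n ih =>
    rw [Finset.sum_range_succ, ih]
    split_ifs with h
    · have h1 : min w (n + 1) = min w n + 1 := by omega
      rw [h1]
      push_cast
      ring
    · have h1 : min w (n + 1) = min w n := by omega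
      rw [h1, add_zero]

private theorem fillE_aff (c σ : ℤ) (n : ℕ) :
    2 * ∑ x ∈ Finset.range (n + 1), (c - σ * x) = (n + 1) * (2 * c - σ * n) := by
  induction n with
  | zero => simp
  | succ n ih =>
    rw [Finset.sum_range_succ, mul_add, ih]
    push_cast
    ring

/-- N2. exact filling (`exists_reduce`, `light_le`, `cert_mono`, `empP_of_cert_up` with `c = 0`) -/
theorem emp_of_fillable {ι : Type} [Fintype ι] [DecidableEq ι] {m : ι → ℕ} {J : Finset ι}
    {M H : ℕ} {r : ℕ → ℕ} (h : Fillable M H r) (hM : 1 ≤ M) (hm : ∀ j ∈ J, m j ≤ M)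
    (hmass : ∑ b ∈ Finset.range H, r b ≤ mass m J) : EmpP (dgm r H) m J := by
  obtain ⟨m', w, hle, _, hw, hsum⟩ := exists_reduce hM hm hmass
  obtain ⟨A, dem, hD, hr, hs⟩ := h w hw
  have h1 : Cert m' J H dem := by
    refine light_le hD J (fun j hj => (hle j).trans (hm j hj)) ?_
    rw [hs]
    have h2 : ((∑ j ∈ J, (m' j + 1).choose 2 : ℕ) : ℤ) = ((∑ b ∈ Finset.range H, r b + w : ℕ) : ℤ) := by
      rw [hsum]
    push_cast at h2
    exact h2.symm
  have h2 : Cert m J H (fun b => (r b : ℤ)) := cert_mono (fun j _ => hle j) hr h1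
  refine empP_of_cert_up (c := 0) h2 (fun b _ => ?_) fun p hp => ?_
  · rw [zero_add]
    exact_mod_cast fillE_row r H b
  · rw [mem_dgm] at hp
    omega

/-- `Λ` of an affine function and an initial segment -/
theorem lam_ind {b w : ℕ} (hb : 1 ≤ b) (c σ : ℤ) :
    Lam b (fun x => c - σ * x + if x < w then 1 else 0) ≤ 2 * b := by
  unfold Lam
  beta_reduce
  rw [Finset.sum_add_distrib, mul_add 2, fillE_aff, fillE_ind]
  have hb' : (1 : ℤ) ≤ b := by exact_mod_cast hb
  rcases Nat.lt_trichotomy w (b + 1) with h | h | h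
  · rw [if_neg (by omega), if_neg (by omega)]
    have h1 : min w (b + 1) = w := by omega
    rw [h1]
    have h2 : (w : ℤ) ≤ b := by omega
    push_cast
    nlinarith
  · rw [if_neg (by omega), if_pos (by omega)]
    have h1 : min w (b + 1) = b + 1 := by omega
    rw [h1]
    push_cast
    nlinarith
  · rw [if_pos (by omega), if_pos (by omega)]
    have h1 : min w (b + 1) = b + 1 := by omega
    rw [h1]
    push_cast
    nlinarith

theorem fillable_of_long {M A H : ℕ} {r : ℕ → ℕ} (h : Long M A H r) : Fillable M H r := by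
  intro w hw
  have hA := h.hA
  have hH := h.hH
  have hM := h.hM
  obtain ⟨σ, hσ⟩ := h.aff
  refine ⟨A, fun x => (r x : ℤ) + if x < w then 1 else 0,
    ⟨hM, hA, hH, ?_, ?_, ?_, ?_, ?_⟩, ?_, ?_⟩
  · intro b hb hb'
    have h1 := h.dec b hb hb'
    rw [if_neg (by omega), if_neg (by omega)]
    omega
  · intro b hb
    have h1 := h.anti b hb
    split_ifs <;> omega
  · intro b hb
    have h1 := h.pos b hb
    split_ifs <;> omega
  · intro b hb hb'
    have h1 : ((9 * M ^ 2 + 2 * M : ℕ) : ℤ) ≤ (r b : ℤ) := by exact_mod_cast h.long b hb hb'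
    push_cast at h1
    split_ifs <;> linarith
  · intro b hb hb'
    refine le_trans (le_of_eq ?_) (lam_ind (w := w) hb (r 0 : ℤ) (σ : ℤ))
    refine Lam_congr fun x hx => ?_
    have h1 : ((r x + σ * x : ℕ) : ℤ) = (r 0 : ℤ) := by exact_mod_cast hσ x (by omega)
    push_cast at h1
    linarith
  · intro b _
    beta_reduce
    split_ifs <;> omega
  · rw [Finset.sum_add_distrib, fillE_ind]
    have h1 : min w H = w := by omega
    rw [h1]

/-- columns `n + 1, n - 1, n - 2, …` -/
theorem fillable_exc {M n s : ℕ} {c : ℕ → ℕ} (hM : 1 ≤ M) (hsn : s ≤ n)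
    (hs : 9 * M ^ 2 + 4 * M + 1 ≤ s) (h0 : c 0 = n + 1) (h : ∀ a, 1 ≤ a → a < s → c a + a = n) :
    Fillable M s c := by
  intro w hw
  have hMM : M ≤ M ^ 2 := by nlinarith
  refine ⟨2 * M + 1, fun x => ((n : ℤ) - 1 * x) + if x < w + 1 then 1 else 0,
    ⟨hM, le_rfl, by omega, ?_, ?_, ?_, ?_, ?_⟩, ?_, ?_⟩
  · intro b hb hb'
    rw [if_neg (by omega), if_neg (by omega)]
    push_cast
    omega
  · intro b hb
    push_cast
    split_ifs <;> omega
  · intro b hb
    split_ifs <;> omega
  · intro b hb hb'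
    have h1 : ((9 * M ^ 2 + 4 * M + 1 : ℕ) : ℤ) ≤ (s : ℤ) := by exact_mod_cast hs
    push_cast at h1
    have h2 : (b : ℤ) ≤ 2 * M + 1 := by exact_mod_cast hb
    have h3 : (s : ℤ) ≤ n := by exact_mod_cast hsn
    split_ifs <;> linarith
  · intro b hb hb'
    exact lam_ind hb (n : ℤ) 1
  · intro b hb
    beta_reduce
    rcases Nat.eq_zero_or_pos b with hb0 | hb0
    · subst hb0
      rw [if_pos (by omega), h0]
      push_cast
      linarith
    · have := h b hb0 hb
      split_ifs <;> omega
  · rw [Finset.sum_add_distrib, fillE_ind]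
    have h1 : min (w + 1) s = w + 1 := by omega
    rw [h1]
    have h2 : ∀ x ∈ Finset.range s, (c x : ℤ) = ((n : ℤ) - 1 * x) + if x < 1 then 1 else 0 := by
      intro x hx
      rw [Finset.mem_range] at hx
      rcases Nat.eq_zero_or_pos x with hb0 | hb0
      · subst hb0
        rw [if_pos (by omega), h0]
        push_cast
        ring
      · have := h x hb0 hx
        rw [if_neg (by omega)]
        omega
    rw [Finset.sum_congr rfl h2, Finset.sum_add_distrib, fillE_ind]
    have h3 : min 1 s = 1 := by omega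
    rw [h3]
    push_cast
    ring

end Pool.Agent.Lib.MP_6b2d39_agNf
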