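import Pool.Agent.Lib.MP_6b2d39_agNf.Dem
import Pool.Agent.Lib.MP_6b2d39_agNw.HYoung

set_option autoImplicit false

namespace Pool.Agent.Lib.MP_6b2d39_agNf

open Pool.Agent.Lib.MP_6b2d39_agNw

variable {ι : Type} [DecidableEq ι] {d : ℕ} {S : Finset ι} {m : ι → ℕ} {i1 i2 : ι}

/-- the heavy part is large -/
def Big {ι : Type} (M d : ℕ) (S : Finset ι) (m : ι → ℕ) : Prop :=
  (S.card = 8 ∧ 36 * M ^ 2 + 60 * M + 27 ≤ d) ∨
    (S.card = 9 ∧ ∑ i ∈ S, m i + (72 * M ^ 2 + 92 * M + 29) ≤ 3 * d)

/-- averaging over a cyclic order -/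
private theorem hlong_sum {e : ℕ} {n : ι → ℕ} (S : Finset ι)
    (htri : ∀ i ∈ S, ∀ j ∈ S, ∀ l ∈ S, i ≠ j → i ≠ l → j ≠ l → n i + n j + n l ≤ e)
    (hS : 3 ≤ S.card) : 3 * ∑ i ∈ S, n i ≤ S.card * e := by
  classical
  obtain ⟨c, hc⟩ : ∃ c, S.card = c + 3 := ⟨S.card - 3, by omega⟩
  let f := S.equivFinOfCardEq hc
  let g : Fin (c + 3) → ℕ := fun j => n (f.symm j : ι)
  have h1 : ∑ i ∈ S, n i = ∑ j, g j := by
    rw [← Finset.sum_coe_sort S n, ← Equiv.sum_comp f.symm fun i : S => n i]
  have h2 : ∀ a : Fin (c + 3), ∑ j, g (j + a) = ∑ j, g j := fun a =>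
    Equiv.sum_comp (Equiv.addRight a) g
  have hinj : ∀ x y : Fin (c + 3), x ≠ y → (f.symm x : ι) ≠ (f.symm y : ι) := by
    intro x y hxy hcon
    exact hxy (f.symm.injective (Subtype.ext hcon))
  have h10 : (1 : Fin (c + 3)) ≠ 0 := by
    intro hcon
    have := congrArg Fin.val hcon
    simp at this
  have h20 : (2 : Fin (c + 3)) ≠ 0 := by
    intro hcon
    have := congrArg Fin.val hcon
    simp at this
    rw [Nat.mod_eq_of_lt (by omega)] at this
    omega
  have h21 : (2 : Fin (c + 3)) ≠ 1 := by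
    intro hcon
    have := congrArg Fin.val hcon
    simp at this
    rw [Nat.mod_eq_of_lt (by omega)] at this
    omega
  have h3 : ∑ j, (g j + g (j + 1) + g (j + 2)) ≤ ∑ _j : Fin (c + 3), e := by
    refine Finset.sum_le_sum fun j _ => ?_
    refine htri _ (f.symm j).2 _ (f.symm (j + 1)).2 _ (f.symm (j + 2)).2
      (hinj _ _ ?_) (hinj _ _ ?_) (hinj _ _ ?_)
    · intro hcon
      exact h10 (by simpa using hcon.symm)
    · intro hcon
      exact h20 (by simpa using hcon.symm)
    · intro hcon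
      exact h21 (add_left_cancel hcon).symm
  rw [Finset.sum_add_distrib, Finset.sum_add_distrib, h2, h2, Finset.sum_const, Finset.card_univ,
    Fintype.card_fin, smul_eq_mul] at h3
  rw [h1, hc]
  omega

/-- strict decrease as long as at most eight points are left -/
private theorem hlong_dec (h : Heavy d S m i1 i2) {H : ℕ}
    (hH : ∀ b, b < H ↔ 3 * b + (m i1 - b) ≤ d)
    (hex : ¬ ∃ b, d = 3 * (b + 1) ∧ m i1 = b + 1 ∧ (S.filter fun i => b < m i).card = 8)
    {b : ℕ} (hc : (S.filter fun i => b < m i).card ≤ 8) (hb : b + 1 < H) :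
    rr d S m i1 i2 (b + 1) + 1 ≤ rr d S m i1 i2 b := by
  have h2 := (hH (b + 1)).1 hb
  rcases Nat.lt_or_ge (3 * (b + 1) + (m i1 - (b + 1))) d with h3 | h3
  · exact h.rr_dec hc h3
  · refine h.rr_dec_edge hc (by omega) ?_
    rintro ⟨h4, h5⟩
    exact hex ⟨b, by omega, h5, h4⟩

/-- the rows away from the edge, all numbers of points -/
private theorem hlong_low8 (h : Heavy d S m i1 i2) {b : ℕ} (hb : 3 * b + (m i1 - b) < d) :
    3 * d ≤ rr d S m i1 i2 b + ∑ i ∈ S, m i + 10 * b := by
  have h1 := (h.rr_third hb).1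
  have h2 : ∑ i ∈ S, (m i - b) ≤ ∑ i ∈ S, m i := Finset.sum_le_sum fun i _ => Nat.sub_le _ _
  have h3 := h.pair
  have h4 := h.le
  have h5 : (m i1 - b) + (m i2 - b) - (d - 3 * b) ≤ b := by omega
  omega

/-- the rows away from the edge, nine points of multiplicity at least `t` -/
private theorem hlong_low9 (h : Heavy d S m i1 i2) (hc : S.card = 9) {t : ℕ}
    (ht : ∀ i ∈ S, t ≤ m i) {b : ℕ} (htb : t ≤ b) (hb : 3 * b + (m i1 - b) < d) :
    3 * d ≤ rr d S m i1 i2 b + ∑ i ∈ S, m i + 10 * (b - t) := by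
  have h1 := (h.rr_third hb).1
  have h2 : ∑ i ∈ S, (m i - b) + 9 * t ≤ ∑ i ∈ S, m i := by
    have h6 : ∑ i ∈ S, ((m i - b) + t) ≤ ∑ i ∈ S, m i := Finset.sum_le_sum fun i hi => by
      have := ht i hi
      omega
    rw [Finset.sum_add_distrib, Finset.sum_const, hc, smul_eq_mul] at h6
    exact h6
  obtain ⟨l, hl, hl1, hl2⟩ := h.exists_third
  have h3 := h.red i1 h.h1 i2 h.h2 l hl h.ne (Ne.symm hl1) (Ne.symm hl2)
  have h4 := h.le
  have h7 := ht l hl
  have h8 := ht i2 h.h2
  have h5 : (m i1 - b) + (m i2 - b) - (d - 3 * b) ≤ b - t := by omega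
  omega

/-- the rows with all points left, nine points -/
private theorem hlong_eq9 (h : Heavy d S m i1 i2) (hc : S.card = 9) {b : ℕ}
    (ht : ∀ i ∈ S, b ≤ m i) (hb : 3 * b + (m i1 - b) < d) :
    rr d S m i1 i2 b + ∑ i ∈ S, m i = 3 * d := by
  have h1 := h.rr_lin9 hc ht (by have := ht i1 h.h1; omega) b le_rfl
  have h2 := (h.rr_third (b := 0) (by omega)).1
  have h3 := h.pair
  simp only [Nat.sub_zero] at h2
  omega

/-- N4. long rows. `A = 2 M + 1` for eight points, `A = max (2 M + 1) (min m + 1)` for nine points;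
the last row is number `H - 1 ≥ 2 M + 2`. (`rr_lin8`, `rr_lin9`, `rr_dec`, `rr_dec_edge`, `rr_pos`,
`rr_third`, `rr_edge` of `HYoung`; lower bound `rr b + 10 * b ≥ rr 0` away from the last row.) -/
theorem long_rows (h : Heavy d S m i1 i2) {M : ℕ} (hM : 1 ≤ M) (hS : ∀ i ∈ S, M ≤ m i)
    (hB : Big M d S m) {H : ℕ} (hH : ∀ b, b < H ↔ 3 * b + (m i1 - b) ≤ d) (hH2 : 2 * M + 3 ≤ H)
    (hex : ¬ ∃ b, d = 3 * (b + 1) ∧ m i1 = b + 1 ∧ (S.filter fun i => b < m i).card = 8) :
    ∃ A, Long M A H (rr d S m i1 i2) := by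
  have hlast := (hH (2 * M + 2)).1 (by omega)
  have hne : ∀ b, b + 1 < H → 3 * b + (m i1 - b) < d := by
    intro b hb
    have := (hH (b + 1)).1 hb
    omega
  have hpos : ∀ b < H, 1 ≤ rr d S m i1 i2 b := fun b hb => h.rr_pos ((hH b).1 hb)
  have h2M : m i1 + 2 * M < d := by omega
  have hMM : 2 * M ≤ M ^ 2 + 1 := by nlinarith [sq_nonneg ((M : ℤ) - 1)]
  rcases hB with ⟨hc, hd⟩ | ⟨hc, hsum⟩
  · -- eight points
    have hfil : ∀ b, (S.filter fun i => b < m i).card ≤ 8 := fun b =>
      (Finset.card_filter_le _ _).trans hc.le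
    refine ⟨2 * M + 1, hM, le_rfl, by omega, fun b _ hb => hlong_dec h hH hex (hfil b) hb,
      fun b hb => ?_, hpos, fun b hb hbH => ?_, 1, fun b hb => ?_⟩
    · have := hlong_dec h hH hex (hfil b) hb
      omega
    · have h1 := hlong_low8 h (hne b (by omega))
      have h2 := hlong_sum S h.red h.three
      rw [hc] at h2
      omega
    · have := h.rr_lin8 hc hS h2M b hb
      omega
  · -- nine points
    obtain ⟨i0, hi0, hmin⟩ := S.exists_min_image m ⟨i1, h.h1⟩
    have hMt := hS i0 hi0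
    generalize ht : m i0 = t at *
    have hfil : ∀ b, t ≤ b → (S.filter fun i => b < m i).card ≤ 8 := by
      intro b hb
      have h2 : (S.filter fun i => b < m i) ⊆ S.erase i0 := by
        intro i hi
        rw [Finset.mem_filter] at hi
        refine Finset.mem_erase.2 ⟨?_, hi.1⟩
        rintro rfl
        omega
      have h3 := Finset.card_le_card h2
      rw [Finset.card_erase_of_mem hi0, hc] at h3
      exact h3
    obtain ⟨l, hl, hl1, hl2⟩ := h.exists_third
    have hred := h.red i1 h.h1 i2 h.h2 l hl h.ne (Ne.symm hl1) (Ne.symm hl2)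
    have h01 := hmin i1 h.h1
    have h02 := hmin i2 h.h2
    have h0l := hmin l hl
    refine ⟨max (2 * M + 1) (t + 1), hM, le_max_left _ _, by omega, fun b hb hbH => ?_,
      fun b hb => ?_, hpos, fun b hb hbH => ?_, 0, fun b hb => ?_⟩
    · exact hlong_dec h hH hex (hfil b (by omega)) hbH
    · rcases Nat.lt_or_ge b t with hbt | hbt
      · rcases Nat.lt_or_ge (3 * (b + 1) + (m i1 - (b + 1))) d with h3 | h3
        · have h4 := h.rr_step (b := b) (fun i hi => by have := hmin i hi; omega) h3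
          omega
        · -- the last row, all points left
          have h4 := (hH (b + 1)).1 hb
          have hedge : d = 3 * (b + 1) + (m i1 - (b + 1)) := by omega
          rw [rr_edge hedge]
          have h5 := (h.rr_third (hne b hb)).1
          have h6 := hlong_eq9 h hc (b := b) (fun i hi => by have := hmin i hi; omega) (hne b hb)
          have h7 : ∑ i ∈ S, (m i - b) ≤ (m i1 - b) + 8 := by
            rw [← Finset.add_sum_erase S _ h.h1]
            have h8 : ∑ i ∈ S.erase i1, (m i - b) ≤ (S.erase i1).card := by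
              rw [Finset.card_eq_sum_ones]
              refine Finset.sum_le_sum fun i hi => ?_
              have h9 := h.max i (Finset.mem_of_mem_erase hi) (Finset.ne_of_mem_erase hi)
              omega
            rw [Finset.card_erase_of_mem h.h1, hc] at h8
            omega
          omega
      · have := hlong_dec h hH hex (hfil b hbt) hb
        omega
    · rcases Nat.lt_or_ge (3 * b + (m i1 - b)) d with h3 | h3
      · rcases Nat.lt_or_ge t b with hbt | hbt
        · have h4 := hlong_low9 h hc hmin hbt.le h3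
          omega
        · have h4 := hlong_eq9 h hc (b := b) (fun i hi => by have := hmin i hi; omega) h3
          omega
      · -- the last row
        have h4 := (hH b).1 hbH
        have hedge : d = 3 * b + (m i1 - b) := by omega
        have h5 : ¬ b + 1 < H := fun h6 => by
          have := hne b h6
          omega
        have h6 : b ≤ t + 1 := by omega
        obtain ⟨b', rfl⟩ : ∃ b', b = b' + 1 := ⟨b - 1, by omega⟩
        have h7 := hne b' (by omega)
        have h8 := hlong_eq9 h hc (b := b') (fun i hi => by have := hmin i hi; omega) h7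
        have h9 := (h.rr_third h7).1
        have h10 := h.sum_split (fun i => m i - b')
        rw [rr_edge hedge]
        omega
    · have := h.rr_lin9 hc hS h2M b hb
      omega

/-- N5. the exceptional case (compare `hy_exc` in `HYoung`) -/
theorem exc_rows (h : Heavy d S m i1 i2) {M : ℕ} (hM : 1 ≤ M) (hS : ∀ i ∈ S, M ≤ m i)
    (hB : Big M d S m) {H : ℕ} (hH : ∀ b, b < H ↔ 3 * b + (m i1 - b) ≤ d)
    (hex : ∃ b, d = 3 * (b + 1) ∧ m i1 = b + 1 ∧ (S.filter fun i => b < m i).card = 8) :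
    ∃ n s, H = n + 1 ∧ s ≤ n ∧ 9 * M ^ 2 + 4 * M + 1 ≤ s ∧
      (∀ b < n, rr d S m i1 i2 b = min s (n - b)) ∧ rr d S m i1 i2 n = 1 := by
  obtain ⟨b, hd, h1, hf⟩ := hex
  have hHn : H = b + 1 + 1 := by
    have h2 := (hH (b + 1)).2 (by omega)
    have h3 : ¬ b + 1 + 1 < H := fun h3 => by
      have := (hH (b + 1 + 1)).1 h3
      omega
    omega
  subst hHn
  have hle := h.le
  have hsplit : ∀ b', ∑ i ∈ S, (m i - b') = ∑ i ∈ S.filter (fun i => b < m i), (m i - b') +
      ∑ i ∈ S.filter (fun i => ¬ b < m i), (m i - b') := fun b' =>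
    (Finset.sum_filter_add_sum_filter_not S _ _).symm
  have h8 : ∀ b', ∑ i ∈ S.filter (fun i => b < m i), (m i - b') = 8 * (b + 1 - b') := by
    intro b'
    rw [Finset.sum_congr rfl (g := fun _ => b + 1 - b'), Finset.sum_const, hf, smul_eq_mul]
    intro i hi
    rw [Finset.mem_filter] at hi
    have := h.le1 hi.1
    omega
  have hcard : (S.filter fun i => ¬ b < m i).card = S.card - 8 := by
    have := Finset.card_filter_add_card_filter_not (s := S) (fun i => b < m i)
    omega
  obtain ⟨c, hcb, hcμ, hcs⟩ : ∃ c, c ≤ b ∧ c + (9 * M ^ 2 + 4 * M + 1) ≤ b + 1 ∧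
      ∀ b', ∑ i ∈ S.filter (fun i => ¬ b < m i), (m i - b') = c - b' := by
    rcases hB with ⟨hc, hsum⟩ | ⟨hc, hsum⟩
    · have h2 : (S.filter fun i => ¬ b < m i) = ∅ := by
        rw [← Finset.card_eq_zero, hcard, hc]
      refine ⟨0, Nat.zero_le _, by omega, fun b' => ?_⟩
      rw [h2, Finset.sum_empty, Nat.zero_sub]
    · rw [hc] at hcard
      obtain ⟨j, hj⟩ := Finset.card_eq_one.1 hcard
      have h2 : j ∈ S.filter fun i => ¬ b < m i := by rw [hj]; exact Finset.mem_singleton_self j
      rw [Finset.mem_filter] at h2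
      have h3 : ∀ b', ∑ i ∈ S.filter (fun i => ¬ b < m i), (m i - b') = m j - b' := fun b' => by
        rw [hj, Finset.sum_singleton]
      refine ⟨m j, by omega, ?_, h3⟩
      have h4 := hsplit 0
      rw [h8, h3] at h4
      simp only [Nat.sub_zero] at h4
      omega
  refine ⟨b + 1, b + 1 - c, rfl, by omega, by omega, ?_, ?_⟩
  · intro b' hb'
    have h2 := (h.rr_third (b := b') (by omega)).1
    rw [hsplit, h8, hcs] at h2
    omega
  · rw [rr_edge (by omega)]
    omega

end Pool.Agent.Lib.MP_6b2d39_agNf
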