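import Pool.Agent.Lib.MP_6b2d39_agNf.Exc
import Pool.Agent.Lib.MP_6b2d39_agNf.HLong
import Pool.Agent.Lib.MP_6b2d39_agNw.Assemble

set_option autoImplicit false

namespace Pool.Agent.Lib.MP_6b2d39_agNf

open Pool.Agent.Lib.MP_6b2d39_ag Pool.Agent.Lib.MP_6b2d39_agArr Pool.Agent.Lib.MP_6b2d39_agWin
  Pool.Agent.Lib.MP_6b2d39_agNw Pool.Agent.Lib.MP_6b2d39_agCr

private theorem n8_config {h d u : ℕ} {m : Fin h → ℕ} {S : Finset (Fin h)} {i1 i2 : Fin h}
    (hH : Heavy d S m i1 i2) {H : ℕ} (hHH : ∀ b, b < H ↔ 3 * b + (m i1 - b) ≤ d)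
    (hE : EmpP (dgm (rr d S m i1 i2) H) (Sum.elim m (fun _ => 1) : Fin h ⊕ Fin u → ℕ)
      (Finset.univ.filter (fun i : Fin h ⊕ Fin u => ∀ l ∈ S, i ≠ Sum.inl l))) :
    ∃ P₀ : Fin h → Fin 3 → ℂ, Module.finrank ℂ (curves d m P₀) ≤ u := by
  have ht : Set.InjOn (fun i : Fin h => ((i : ℕ) : ℂ)) (S : Set (Fin h)) := by
    intro i _ j _ hij
    exact Fin.ext (Nat.cast_injective (R := ℂ) hij)
  obtain ⟨x, y, hxy⟩ := hH.kill ht hHH hE
  exact exists_configS S _ x y hxy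

private theorem n8_split {h : ℕ} (S : Finset (Fin h)) (f : Fin h → ℕ) :
    ∑ l, f l = ∑ l ∈ S, f l + ∑ l ∈ Finset.univ.filter (fun l => l ∉ S), f l := by
  rw [← Finset.sum_filter_add_sum_filter_not Finset.univ (fun l => l ∈ S) f]
  congr 1
  apply Finset.sum_congr _ (fun _ _ => rfl)
  ext l
  simp

private theorem n8_vd {h d : ℕ} {m : Fin h → ℕ} {S : Finset (Fin h)} {R : ℕ}
    (hR : R + ∑ i ∈ S, (m i + 1).choose 2 = (d + 2).choose 2) :
    vd d m = (R : ℤ) -
      ((∑ l ∈ Finset.univ.filter (fun l => l ∉ S), (m l + 1).choose 2 : ℕ) : ℤ) := by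
  have h2 := n8_split S (fun l => (m l + 1).choose 2)
  unfold vd
  have h3 : (∑ i, ((m i + 1).choose 2 : ℤ)) = ((∑ l, (m l + 1).choose 2 : ℕ) : ℤ) := by
    push_cast
    rfl
  rw [h3, h2, ← hR]
  push_cast
  ring

private theorem n8_all {h u : ℕ} (S : Finset (Fin h)) :
    ((Finset.univ.filter (fun l : Fin h => l ∉ S)).map
      Function.Embedding.inl) ∪ (Finset.univ : Finset (Fin u)).map Function.Embedding.inr =
      (Finset.univ.filter (fun i : Fin h ⊕ Fin u => ∀ l ∈ S, i ≠ Sum.inl l)) := by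
  ext i
  rw [Finset.mem_union, Finset.mem_map, Finset.mem_map, Finset.mem_filter]
  constructor
  · rintro (⟨l, hl, rfl⟩ | ⟨l, -, rfl⟩)
    · refine ⟨Finset.mem_univ _, fun l' hl' heq => ?_⟩
      rw [Finset.mem_filter] at hl
      apply hl.2
      rw [Sum.inl_injective heq]
      exact hl'
    · refine ⟨Finset.mem_univ _, fun l' _ heq => ?_⟩
      simp at heq
  · rintro ⟨-, hi⟩
    rcases i with l | l
    · left
      refine ⟨l, ?_, rfl⟩
      rw [Finset.mem_filter]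
      exact ⟨Finset.mem_univ _, fun hl => hi l hl rfl⟩
    · right
      exact ⟨l, Finset.mem_univ _, rfl⟩

/-- N6. many rows (as `window_S` in `agNw/Assemble.lean`) -/
theorem nf_heavy {h d M : ℕ} {m : Fin h → ℕ} {S : Finset (Fin h)} {i1 i2 : Fin h}
    (hH : Heavy d S m i1 i2) (hM : 1 ≤ M) (hS : ∀ i ∈ S, M ≤ m i) (hlight : ∀ i ∉ S, m i ≤ M)
    (hB : Big M d S m) (hbig : m i1 + (4 * M + 4) ≤ d) :
    General (fun P => (Module.finrank ℂ (curves d m P) : ℤ) = max (vd d m) 0) := by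
  obtain ⟨H, hHH⟩ := hH.exists_H
  have hsum := hH.sum_rr hHH
  have hvd := n8_vd hsum
  set R := ∑ b ∈ Finset.range H, rr d S m i1 i2 b with hR
  set N := ∑ l ∈ Finset.univ.filter (fun l => l ∉ S), (m l + 1).choose 2 with hN
  have hd : 6 * M + 6 ≤ d := by
    rcases hB with ⟨-, hB⟩ | ⟨-, hB⟩
    · nlinarith [hB, sq_nonneg M]
    · have : 72 * M ^ 2 + 92 * M + 29 ≤ 3 * d := le_trans (Nat.le_add_left _ _) hB
      nlinarith [this, sq_nonneg M]
  have hH2 : 2 * M + 3 ≤ H := by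
    have := (hHH (2 * M + 2)).2 (by omega)
    omega
  -- the filling
  have key : ∀ J : Finset (Fin h ⊕ Fin (R - N)),
      (∀ j ∈ J, (Sum.elim m (fun _ => 1) : Fin h ⊕ Fin (R - N) → ℕ) j ≤ M) →
      R ≤ mass (Sum.elim m (fun _ => 1) : Fin h ⊕ Fin (R - N) → ℕ) J →
      EmpP (dgm (rr d S m i1 i2) H) (Sum.elim m (fun _ => 1) : Fin h ⊕ Fin (R - N) → ℕ) J := by
    intro J hJ hmass
    by_cases hex : ∃ b, d = 3 * (b + 1) ∧ m i1 = b + 1 ∧
        (S.filter fun i => b < m i).card = 8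
    · obtain ⟨n, s, hHn, hsn, hs, hr, h1⟩ := exc_rows hH hM hS hB hHH hex
      rw [hHn] at hR ⊢
      exact emp_exc hM hJ hsn hs hr h1 (by rw [← hR]; exact hmass)
    · obtain ⟨A, hL⟩ := long_rows hH hM hS hB hHH hH2 hex
      exact emp_of_fillable (fillable_of_long hL) hM hJ hmass
  have hE := key (((Finset.univ.filter (fun l : Fin h => l ∉ S)).map
      Function.Embedding.inl) ∪ (Finset.univ : Finset (Fin (R - N))).map Function.Embedding.inr) (by
    intro j hj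
    rw [Finset.mem_union, Finset.mem_map, Finset.mem_map] at hj
    rcases hj with ⟨l, hl, rfl⟩ | ⟨l, -, rfl⟩
    · rw [Finset.mem_filter] at hl
      exact hlight l hl.2
    · exact hM) (by
    unfold mass
    rw [Finset.sum_union, Finset.sum_map, Finset.sum_map]
    · have h1 : ∑ l ∈ Finset.univ.filter (fun l : Fin h => l ∉ S),
          ((Sum.elim m (fun _ => 1) : Fin h ⊕ Fin (R - N) → ℕ)
            (Function.Embedding.inl l) + 1).choose 2 = N := rfl
      have h2 : ∑ l : Fin (R - N), ((Sum.elim m (fun _ => 1) : Fin h ⊕ Fin (R - N) → ℕ)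
            (Function.Embedding.inr l) + 1).choose 2 = R - N := by
        simp
      rw [h1, h2]
      omega
    · rw [Finset.disjoint_left]
      intro i hi hi'
      rw [Finset.mem_map] at hi hi'
      obtain ⟨a, -, rfl⟩ := hi
      obtain ⟨b, -, hb⟩ := hi'
      simp at hb)
  rw [n8_all] at hE
  obtain ⟨P₀, hP₀⟩ := n8_config hH hHH hE
  apply general_nonspecial_of_le P₀
  have h3 : (Module.finrank ℂ (curves d m P₀) : ℤ) ≤ ((R - N : ℕ) : ℤ) := by
    exact_mod_cast hP₀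
  rw [hvd]
  rcases Nat.le_total N R with h4 | h4
  · apply le_max_of_le_left
    rw [Nat.cast_sub h4] at h3
    exact h3
  · apply le_max_of_le_right
    rw [Nat.sub_eq_zero_of_le h4] at h3
    exact h3

end Pool.Agent.Lib.MP_6b2d39_agNf
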