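import Pool.Agent.Lib.MP_6b2d39_agNf.HLong
import Pool.Agent.Lib.MP_6b2d39_agWin.Final

set_option autoImplicit false

namespace Pool.Agent.Lib.MP_6b2d39_agNf

open Pool.Agent.Lib.MP_6b2d39_ag Pool.Agent.Lib.MP_6b2d39_agArr Pool.Agent.Lib.MP_6b2d39_agWin
  Pool.Agent.Lib.MP_6b2d39_agNw Pool.Agent.Lib.MP_6b2d39_agCr

/-- N7. few rows: the second and third multiplicities are small, three point theorem
(`reduced_nonspecial` as in `reduced_large` of `agWin/Final.lean`, with `M` the third multiplicity,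
which is at most `2 M + 1`) -/
theorem nf_short {h d M : ℕ} (hh : 3 ≤ h) {m : Fin h → ℕ} (hred : Reduced d m) {i1 : Fin h}
    (hM : 1 ≤ M) (h1 : d ≤ m i1 + (4 * M + 3)) (hd : 36 * M ^ 2 + 44 * M + 13 ≤ d) :
    General (fun P => (Module.finrank ℂ (curves d m P) : ℤ) = max (vd d m) 0) := by
  obtain ⟨τ, h12, h20, hτ⟩ := exists_heavy hh m
  have hs := hred τ
  rw [Fin.sum_univ_three] at hs
  have hi1 : m i1 ≤ m (τ 0) := by
    by_cases hi : ∃ t, τ t = i1
    · obtain ⟨t, rfl⟩ := hi
      fin_cases t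
      · exact le_rfl
      · exact h12.trans h20
      · exact h20
    · exact (hτ i1 hi).trans (h12.trans h20)
  rcases Nat.eq_zero_or_pos (m (τ 1)) with h0 | h0
  · apply nonspecial_three τ _ (hred τ)
    intro l hl
    have := hτ l hl
    omega
  · apply general_nonspecial_of_affine
    have hm1 : m (τ 1) ≤ 2 * M + 1 := by omega
    have hsq : (m (τ 1)) ^ 2 ≤ 4 * M ^ 2 + 4 * M + 1 := by
      have h2 := Nat.pow_le_pow_left hm1 2
      have h3 : (2 * M + 1) ^ 2 = 4 * M ^ 2 + 4 * M + 1 := by ring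
      omega
    apply MP_6b2d39_agArr.reduced_nonspecial (M := m (τ 1)) m (τ 0) (τ 2) (τ 1)
      (fun h => absurd (τ.injective h) (by decide)) (fun h => absurd (τ.injective h) (by decide))
      (fun h => absurd (τ.injective h) (by decide)) h0
    · intro i h1 h2 h3
      have hi : ¬ ∃ t, τ t = i := by
        rintro ⟨t, ht⟩
        fin_cases t
        · exact h1 ht.symm
        · exact h3 ht.symm
        · exact h2 ht.symm
      exact hτ i hi
    · exact h12
    · exact le_rfl
    · omega
    · omega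

end Pool.Agent.Lib.MP_6b2d39_agNf
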