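import Pool.Agent.Lib.MP_6b2d39_agNf.Heavy8
import Pool.Agent.Lib.MP_6b2d39_agNf.Short
import Pool.Agent.Lib.MP_6b2d39_agNw.Nine

set_option autoImplicit false

namespace Pool.Agent.Lib.MP_6b2d39_agNf

open Pool.Agent.Lib.MP_6b2d39_ag Pool.Agent.Lib.MP_6b2d39_agArr Pool.Agent.Lib.MP_6b2d39_agWin
  Pool.Agent.Lib.MP_6b2d39_agNw Pool.Agent.Lib.MP_6b2d39_agCr

private theorem lg_tri {h e : ℕ} {n : Fin h → ℕ} (hred : Reduced e n) (i j l : Fin h)
    (hij : i ≠ j) (hil : i ≠ l) (hjl : j ≠ l) : n i + n j + n l ≤ e := by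
  have h1 := hred ⟨![i, j, l], by
    intro a b hab
    fin_cases a <;> fin_cases b <;> simp_all [eq_comm]⟩
  rw [Fin.sum_univ_three] at h1
  exact h1

/-- averaging over a cyclic order -/
private theorem lg_sum {h e : ℕ} {n : Fin h → ℕ}
    (htri : ∀ i j l : Fin h, i ≠ j → i ≠ l → j ≠ l → n i + n j + n l ≤ e) (S : Finset (Fin h))
    (hS : 3 ≤ S.card) : 3 * ∑ i ∈ S, n i ≤ S.card * e := by
  classical
  obtain ⟨c, hc⟩ : ∃ c, S.card = c + 3 := ⟨S.card - 3, by omega⟩
  let f := S.equivFinOfCardEq hc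
  let g : Fin (c + 3) → ℕ := fun j => n (f.symm j : Fin h)
  have h1 : ∑ i ∈ S, n i = ∑ j, g j := by
    rw [← Finset.sum_coe_sort S n, ← Equiv.sum_comp f.symm fun i : S => n i]
  have h2 : ∀ a : Fin (c + 3), ∑ j, g (j + a) = ∑ j, g j := fun a =>
    Equiv.sum_comp (Equiv.addRight a) g
  have hinj : ∀ x y : Fin (c + 3), x ≠ y → (f.symm x : Fin h) ≠ (f.symm y : Fin h) := by
    intro x y hxy hcon
    exact hxy (f.symm.injective (Subtype.ext hcon))
  have h10 : (1 : Fin (c + 3)) ≠ 0 := by
    intro hcon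
    have := congrArg Fin.val hcon
    simp at this
  have h20 : (2 : Fin (c + 3)) ≠ 0 := by
    intro hcon
    have := congrArg Fin.val hcon
    simp at this
    rw [Nat.mod_eq_of_lt (by omega)] at this
    omega
  have h21 : (2 : Fin (c + 3)) ≠ 1 := by
    intro hcon
    have := congrArg Fin.val hcon
    simp at this
    rw [Nat.mod_eq_of_lt (by omega)] at this
    omega
  have h3 : ∑ j, (g j + g (j + 1) + g (j + 2)) ≤ ∑ _j : Fin (c + 3), e := by
    refine Finset.sum_le_sum fun j _ => ?_
    refine htri _ _ _ (hinj _ _ ?_) (hinj _ _ ?_) (hinj _ _ ?_)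
    · intro hcon
      exact h10 (by simpa using hcon.symm)
    · intro hcon
      exact h20 (by simpa using hcon.symm)
    · intro hcon
      exact h21 (add_left_cancel hcon).symm
  rw [Finset.sum_add_distrib, Finset.sum_add_distrib, h2, h2, Finset.sum_const, Finset.card_univ,
    Fintype.card_fin, smul_eq_mul] at h3
  rw [h1, hc]
  omega

/-- N8. (cases as in `window_nine`; `nf_short` if `e ≤ n i1 + (4 M + 3)`) -/
theorem reduced_large8 {h : ℕ} (hh : 3 ≤ h) {e : ℕ} {n : Fin h → ℕ} (hred : Reduced e n) {M : ℕ}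
    (hM : 1 ≤ M) (hcard : (Finset.univ.filter (fun i => M < n i)).card ≤ 8)
    (he : 36 * M ^ 2 + 60 * M + 27 ≤ e) :
    General (fun P => (Module.finrank ℂ (curves e n P) : ℤ) = max (vd e n) 0) := by
  classical
  have htri := lg_tri hred
  rcases Nat.lt_or_ge 8 h with h8 | h8
  · -- the eight largest
    obtain ⟨S, hS, htop⟩ := exists_top n (c := 8) (by omega)
    obtain ⟨i1, h1, i2, h2, hne, hle, hmax⟩ := exists_two S n (by omega)
    have hs3 := lg_sum htri S (by omega)
    have hH : Heavy e S n i1 i2 :=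
      ⟨h1, h2, hne, hle, hmax, fun i _ j _ l _ => htri i j l, by omega, by omega, by
        rw [hS] at hs3
        omega⟩
    have hne' : (Sᶜ).Nonempty := by
      rw [← Finset.card_pos, Finset.card_compl, Fintype.card_fin, hS]
      omega
    obtain ⟨j₀, hj₀, hj₁⟩ := Finset.exists_max_image Sᶜ n hne'
    have hj₂ : j₀ ∉ S := Finset.mem_compl.1 hj₀
    rcases Nat.eq_zero_or_pos (n j₀) with hz | hz
    · refine base_S hH fun i hi => ?_
      have := hj₁ i (Finset.mem_compl.2 hi)
      omega
    · have hμ0 : n j₀ ≤ M := by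
        by_contra hcon
        push Not at hcon
        have hsub : insert j₀ S ⊆ Finset.univ.filter (fun i => M < n i) := by
          intro i hi
          rw [Finset.mem_filter]
          refine ⟨Finset.mem_univ _, ?_⟩
          rcases Finset.mem_insert.1 hi with rfl | hi
          · exact hcon
          · exact lt_of_lt_of_le hcon (htop i hi j₀ hj₂)
        have h5 := Finset.card_le_card hsub
        rw [Finset.card_insert_of_notMem hj₂, hS] at h5
        omega
      have hsq := Nat.pow_le_pow_left hμ0 2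
      rcases Nat.lt_or_ge e (n i1 + (4 * n j₀ + 4)) with hlt | hge
      · exact nf_short hh hred (i1 := i1) hz (by omega) (by omega)
      · exact nf_heavy hH hz (fun i hi => htop i hi j₀ hj₂)
          (fun i hi => hj₁ i (Finset.mem_compl.2 hi)) (Or.inl ⟨hS, by omega⟩) hge
  · -- at most eight points
    obtain ⟨i1, h1, i2, h2, hne, hle, hmax⟩ := exists_two (Finset.univ : Finset (Fin h)) n (by
      rw [Finset.card_univ, Fintype.card_fin]
      omega)
    have hs3 := lg_sum htri Finset.univ (by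
      rw [Finset.card_univ, Fintype.card_fin]
      exact hh)
    rw [Finset.card_univ, Fintype.card_fin] at hs3
    have hs4 : h * e ≤ 8 * e := Nat.mul_le_mul_right e h8
    refine base_S (S := Finset.univ) (i1 := i1) (i2 := i2)
      ⟨h1, h2, hne, hle, hmax, fun i _ j _ l _ => htri i j l, ?_, ?_, ?_⟩
      fun i hi => absurd (Finset.mem_univ i) hi
    · rw [Finset.card_univ, Fintype.card_fin]
      exact hh
    · rw [Finset.card_univ, Fintype.card_fin]
      omega
    · omega

theorem reduced_nine {h : ℕ} (hh : 3 ≤ h) {e : ℕ} {n : Fin h → ℕ} (hred : Reduced e n) {M : ℕ}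
    (hM : 1 ≤ M) (hcard : (Finset.univ.filter (fun i => M < n i)).card = 9)
    (he : ∑ i ∈ Finset.univ.filter (fun i => M < n i), n i + (72 * M ^ 2 + 92 * M + 29) ≤ 3 * e) :
    General (fun P => (Module.finrank ℂ (curves e n P) : ℤ) = max (vd e n) 0) := by
  classical
  have htri := lg_tri hred
  obtain ⟨i1, h1, i2, h2, hne, hle, hmax⟩ :=
    exists_two (Finset.univ.filter (fun i => M < n i)) n (by omega)
  have hH : Heavy e (Finset.univ.filter (fun i => M < n i)) n i1 i2 :=
    ⟨h1, h2, hne, hle, hmax, fun i _ j _ l _ => htri i j l, by omega, by omega, by omega⟩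
  have hi1 : n i1 ≤ ∑ i ∈ Finset.univ.filter (fun i => M < n i), n i :=
    Finset.single_le_sum (fun i _ => Nat.zero_le _) h1
  rcases Nat.lt_or_ge e (n i1 + (4 * M + 4)) with hlt | hge
  · exact nf_short hh hred (i1 := i1) hM (by omega) (by omega)
  · refine nf_heavy hH hM (fun i hi => ((Finset.mem_filter.1 hi).2).le) (fun i hi => ?_)
      (Or.inr ⟨hcard, he⟩) hge
    by_contra hcon
    exact hi (Finset.mem_filter.2 ⟨Finset.mem_univ _, not_le.1 hcon⟩)

end Pool.Agent.Lib.MP_6b2d39_agNf
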