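import Pool.Agent.Lib.MP_6b2d39_agNf.Large
import Pool.Agent.Lib.MP_6b2d39_agWin.Strong

set_option autoImplicit false

namespace Pool.Agent.Lib.MP_6b2d39_agNf

open Pool.Agent.Lib.MP_6b2d39_ag Pool.Agent.Lib.MP_6b2d39_agArr Pool.Agent.Lib.MP_6b2d39_agWin
  Pool.Agent.Lib.MP_6b2d39_agNw Pool.Agent.Lib.MP_6b2d39_agCr

/-- N9. (as `reduced_many` in `agWin/Final.lean`) -/
theorem reduced_many8 {h : ℕ} (hh : 3 ≤ h) {e : ℕ} {n : Fin h → ℕ} (hred : Reduced e n) {M : ℕ}
    (hM : 1 ≤ M) (hcard : (Finset.univ.filter (fun i => M < n i)).card ≤ 8)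
    (hsum : (36 * M ^ 2 + 60 * M + 29).choose 2 ≤ ∑ i, (n i + 1).choose 2) :
    General (fun P => (Module.finrank ℂ (curves e n P) : ℤ) = max (vd e n) 0) := by
  rcases Nat.lt_or_ge e (36 * M ^ 2 + 60 * M + 27) with hlt | hge
  · obtain ⟨e0, he0⟩ : ∃ e0, e0 = 36 * M ^ 2 + 60 * M + 27 := ⟨_, rfl⟩
    have h36 : 36 * M ^ 2 + 60 * M + 29 = e0 + 2 := by omega
    rw [h36] at hsum
    rw [← he0] at hlt
    have h1 := reduced_large8 hh (e := e0) (fun τ => (hred τ).trans hlt.le) hM hcard he0.symm.le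
    refine h1.mono ?_
    intro P hP
    have hsum' : (((e0 + 2).choose 2 : ℕ) : ℤ) ≤ ∑ i, (((n i + 1).choose 2 : ℕ) : ℤ) := by
      exact_mod_cast hsum
    have hv0 : vd e0 n ≤ 0 := by
      unfold vd
      linarith
    have hv : vd e n ≤ 0 := by
      refine le_trans ?_ hv0
      unfold vd
      have : (((e + 2).choose 2 : ℕ) : ℤ) ≤ (((e0 + 2).choose 2 : ℕ) : ℤ) := by
        exact_mod_cast Nat.choose_le_choose 2 (by omega)
      linarith
    rw [max_eq_right hv0] at hP
    rw [max_eq_right hv]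
    have hfin := final_finite_curves e0 n P
    have hbot : curves e0 n P = ⊥ := by
      apply Submodule.finrank_eq_zero.1
      exact_mod_cast hP
    have hbot' : curves e n P = ⊥ := by
      rw [Submodule.eq_bot_iff]
      intro F hF
      have h2 : MvPolynomial.X 0 ^ (e0 - e) * F ∈ curves e0 n P := by
        rw [mem_curves] at hF ⊢
        refine ⟨?_, fun i => van_mul_left (hF.2 i) _⟩
        have h3 := ((MvPolynomial.isHomogeneous_X ℂ (0 : Fin 3)).pow (e0 - e)).mul hF.1
        have h4 : 1 * (e0 - e) + e = e0 := by omega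
        rw [h4] at h3
        exact h3
      rw [hbot, Submodule.mem_bot] at h2
      rcases mul_eq_zero.1 h2 with h3 | h3
      · exact absurd h3 (pow_ne_zero _ (MvPolynomial.X_ne_zero 0))
      · exact h3
    rw [hbot', finrank_bot]
    rfl
  · exact reduced_large8 hh hred hM hcard hge

/-- the final theorem -/
theorem hh_finite_nine {h : ℕ} (hh : 3 ≤ h) (d : ℕ) (m : Fin h → ℕ) :
    General (fun P => IsSpecial d m P ↔ IsMinusOneSpecial d m P) ∨
      ∃ (e : ℕ) (n : Fin h → ℕ), Relation.ReflTransGen CremonaStep (d, m) (e, n) ∧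
        (∀ i, n i ≤ m i) ∧ Reduced e n ∧ General (fun P => IsSpecial e n P) ∧
        ∀ M : ℕ, 1 ≤ M →
          ((Finset.univ.filter (fun i => M < n i)).card ≤ 3 → e < 27 * M ^ 2 + 6 * M ∧
            ∑ i, (n i + 1).choose 2 < (27 * M ^ 2 + 6 * M + 2).choose 2) ∧
          ((Finset.univ.filter (fun i => M < n i)).card ≤ 8 → e < 36 * M ^ 2 + 60 * M + 27 ∧
            ∑ i, (n i + 1).choose 2 < (36 * M ^ 2 + 60 * M + 29).choose 2) ∧
          ((Finset.univ.filter (fun i => M < n i)).card = 9 →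
            3 * e < ∑ i ∈ Finset.univ.filter (fun i => M < n i), n i +
              (72 * M ^ 2 + 92 * M + 29)) := by
  rcases hh_main hh d m with h1 | ⟨e, n, hr, hred, hbad⟩
  · exact Or.inl h1
  · refine Or.inr ⟨e, n, hr, fun i => le_of_reach hr i, hred, general_special_of_bad hbad, ?_⟩
    intro M hM
    refine ⟨fun hc => ⟨?_, ?_⟩, fun hc => ⟨?_, ?_⟩, fun hc => ?_⟩
    · by_contra hcon
      exact hbad (reduced_large hh hred hM hc (not_lt.1 hcon))
    · by_contra hcon
      exact hbad (reduced_many hh hred hM hc (not_lt.1 hcon))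
    · by_contra hcon
      exact hbad (reduced_large8 hh hred hM hc (not_lt.1 hcon))
    · by_contra hcon
      exact hbad (reduced_many8 hh hred hM hc (not_lt.1 hcon))
    · by_contra hcon
      exact hbad (reduced_nine hh hred hM hc (not_lt.1 hcon))

end Pool.Agent.Lib.MP_6b2d39_agNf
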